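import Mathlib

set_option autoImplicit false

/-!
# Parameters
-/

namespace Pool.Agent.Q287.NC

open Filter Topology

theorem ev_log (c s : ℝ) (hc : 0 < c) (hs : 0 < s) : ∀ᶠ x : ℝ in atTop, Real.log x ≤ c * x ^ s := by
  have h := (isLittleO_log_rpow_atTop hs).bound hc
  filter_upwards [h, eventually_ge_atTop (1:ℝ)] with x hx hx1
  have h1 : 0 ≤ Real.log x := Real.log_nonneg hx1
  have h2 : 0 ≤ x ^ s := Real.rpow_nonneg (by linarith) s
  rwa [Real.norm_of_nonneg h1, Real.norm_of_nonneg h2] at hx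

theorem ev_exp (a s : ℝ) (ha : 0 < a) (hs : 0 < s) :
    ∀ᶠ x : ℝ in atTop, 32 * x ^ 3 * Real.exp (-(a * x ^ s)) ≤ 1 := by
  have h1 := (tendsto_rpow_mul_exp_neg_mul_atTop_nhds_zero (3 / s) a ha).comp
    (tendsto_rpow_atTop hs)
  have h2 := h1.eventually_le_const (show (0:ℝ) < 1 / 32 by norm_num)
  filter_upwards [h2, eventually_ge_atTop (1:ℝ)] with x hx hx1
  have e1 : (x ^ s) ^ (3 / s) = x ^ 3 := by
    rw [← Real.rpow_mul (by linarith), mul_div_cancel₀ _ hs.ne']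
    exact_mod_cast Real.rpow_natCast x 3
  simp only [Function.comp] at hx
  rw [e1, neg_mul] at hx
  linarith

/-- all conditions on a large `x` -/
theorem params (κ τ b D₁ : ℝ) (hκ0 : 0 < κ) (hκ1 : κ < 1) (hτ0 : 0 < τ) (hτ : 8 * τ ≤ 1 - κ)
    (hb : 0 < b) :
    ∃ X : ℝ, 3 ≤ X ∧ ∀ x : ℝ, X ≤ x →
      2 ≤ x ^ τ ∧ D₁ ≤ x ^ (1 - κ - 3 * τ) ∧
      32 * x ^ 3 * Real.exp (-(τ ^ 2 / 6 * x ^ (1 - κ - 3 * τ))) ≤ 1 ∧
      12 / τ ^ 2 ≤ x ^ τ ∧
      4 * (1 / b * Real.log x) ≤ τ ^ 2 * x ^ (1 - κ - τ) ∧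
      1 / b * Real.log x ≤ x ^ (1 - τ) ∧
      x ^ (1 - τ) + 1 / b * Real.log x + 1 ≤ τ * (x / Real.log x) := by
  have hs1 : 0 < 1 - κ - 3 * τ := by linarith
  have hs2 : 0 < 1 - κ - τ := by linarith
  have hs3 : 0 < 1 - τ := by linarith
  have t1 := tendsto_rpow_atTop hτ0
  have t2 := tendsto_rpow_atTop hs1
  have c1 : 0 < min 1 (τ / 3 * b) := lt_min one_pos (by positivity)
  have hall : ∀ᶠ x : ℝ in atTop, 3 ≤ x ∧ (2 ≤ x ^ τ ∧ D₁ ≤ x ^ (1 - κ - 3 * τ) ∧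
      32 * x ^ 3 * Real.exp (-(τ ^ 2 / 6 * x ^ (1 - κ - 3 * τ))) ≤ 1 ∧
      12 / τ ^ 2 ≤ x ^ τ ∧
      4 * (1 / b * Real.log x) ≤ τ ^ 2 * x ^ (1 - κ - τ) ∧
      1 / b * Real.log x ≤ x ^ (1 - τ) ∧
      x ^ (1 - τ) + 1 / b * Real.log x + 1 ≤ τ * (x / Real.log x)) := by
    filter_upwards [eventually_ge_atTop (3:ℝ), t1.eventually_ge_atTop 2,
      t2.eventually_ge_atTop D₁, ev_exp (τ ^ 2 / 6) _ (by positivity) hs1,
      t1.eventually_ge_atTop (12 / τ ^ 2), ev_log (τ ^ 2 * b / 4) _ (by positivity) hs2,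
      ev_log b _ hb hs3, ev_log (τ / 3) τ (by positivity) hτ0,
      ev_log (min 1 (τ / 3 * b)) (1 / 2) c1 (by norm_num),
      ev_log (τ / 3) 1 (by positivity) one_pos] with x h3 h4 h5 h6 h7 h8 h9 h10 h11 h12
    have hx0 : 0 < x := by linarith
    have hlog : 0 < Real.log x := Real.log_pos (by linarith)
    refine ⟨h3, h4, h5, h6, h7, ?_, ?_, ?_⟩
    · have : 4 * (1 / b * Real.log x) = 4 / b * Real.log x := by ring
      rw [this]
      calc 4 / b * Real.log x ≤ 4 / b * (τ ^ 2 * b / 4 * x ^ (1 - κ - τ)) := by gcongr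
        _ = τ ^ 2 * x ^ (1 - κ - τ) := by field_simp
    · calc 1 / b * Real.log x ≤ 1 / b * (b * x ^ (1 - τ)) := by gcongr
        _ = x ^ (1 - τ) := by field_simp
    · have hA : x ^ (1 - τ) * Real.log x ≤ τ / 3 * x := by
        calc x ^ (1 - τ) * Real.log x ≤ x ^ (1 - τ) * (τ / 3 * x ^ τ) := by gcongr
          _ = τ / 3 * (x ^ (1 - τ) * x ^ τ) := by ring
          _ = τ / 3 * x := by
            rw [← Real.rpow_add hx0]
            norm_num
      have hB : 1 / b * Real.log x * Real.log x ≤ τ / 3 * x := by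
        have hsq : Real.log x * Real.log x ≤ min 1 (τ / 3 * b) * x := by
          have e1 : x ^ ((1:ℝ) / 2) * x ^ ((1:ℝ) / 2) = x := by
            rw [← Real.rpow_add hx0]; norm_num
          have hp : 0 ≤ x ^ ((1:ℝ) / 2) := Real.rpow_nonneg hx0.le _
          have hm1 : min 1 (τ / 3 * b) ≤ 1 := min_le_left _ _
          calc Real.log x * Real.log x ≤ (min 1 (τ / 3 * b) * x ^ ((1:ℝ) / 2)) *
                (min 1 (τ / 3 * b) * x ^ ((1:ℝ) / 2)) :=
                mul_le_mul h11 h11 hlog.le (by positivity)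
            _ = min 1 (τ / 3 * b) * (min 1 (τ / 3 * b) * (x ^ ((1:ℝ) / 2) * x ^ ((1:ℝ) / 2))) := by
              ring
            _ = min 1 (τ / 3 * b) * (min 1 (τ / 3 * b) * x) := by rw [e1]
            _ ≤ 1 * (min 1 (τ / 3 * b) * x) := by gcongr
            _ = _ := one_mul _
        calc 1 / b * Real.log x * Real.log x = 1 / b * (Real.log x * Real.log x) := by ring
          _ ≤ 1 / b * (min 1 (τ / 3 * b) * x) := by gcongr
          _ ≤ 1 / b * (τ / 3 * b * x) := by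
            have := min_le_right 1 (τ / 3 * b)
            gcongr
          _ = τ / 3 * x := by field_simp
      have hC : Real.log x ≤ τ / 3 * x := by simpa using h12
      rw [← mul_div_assoc, le_div_iff₀ hlog]
      have hD : (x ^ (1 - τ) + 1 / b * Real.log x + 1) * Real.log x =
          x ^ (1 - τ) * Real.log x + 1 / b * Real.log x * Real.log x + Real.log x := by ring
      rw [hD]
      calc x ^ (1 - τ) * Real.log x + 1 / b * Real.log x * Real.log x + Real.log x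
          ≤ τ / 3 * x + τ / 3 * x + τ / 3 * x := add_le_add (add_le_add hA hB) hC
        _ = τ * x := by ring
  obtain ⟨X, hX⟩ := hall.exists_forall_of_atTop
  exact ⟨max 3 X, le_max_left _ _, fun x hx => (hX x ((le_max_right _ _).trans hx)).2⟩

/-- the constant -/
theorem choose_tau (κ c ε : ℝ) (hκ1 : κ < 1) (hε : 0 < ε) :
    ∃ τ : ℝ, 0 < τ ∧ 8 * τ ≤ 1 - κ ∧ τ ≤ 1 / 4 ∧
      (1 + τ) * (c + τ) / ((1 - κ - 3 * τ) * (1 - τ) / (1 + τ) ^ 2) + τ ≤ c / (1 - κ) + ε := by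
  have hk : 0 < 1 - κ := by linarith
  have hcont : ContinuousAt (fun τ : ℝ =>
      (1 + τ) * (c + τ) / ((1 - κ - 3 * τ) * (1 - τ) / (1 + τ) ^ 2) + τ) 0 := by
    apply ContinuousAt.add _ continuousAt_id
    apply ContinuousAt.div (by fun_prop) _ (by simp; linarith)
    apply ContinuousAt.div (by fun_prop) (by fun_prop) (by norm_num)
  have hval : (1 + (0:ℝ)) * (c + 0) / ((1 - κ - 3 * 0) * (1 - 0) / (1 + 0) ^ 2) + 0 = c / (1 - κ) := by
    simp
  have h1 : ∀ᶠ τ : ℝ in 𝓝 0, (1 + τ) * (c + τ) / ((1 - κ - 3 * τ) * (1 - τ) / (1 + τ) ^ 2) + τ <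
      c / (1 - κ) + ε := by
    have := hcont.eventually_lt_const (u := c / (1 - κ) + ε) (by
      show (1 + (0:ℝ)) * (c + 0) / ((1 - κ - 3 * 0) * (1 - 0) / (1 + 0) ^ 2) + 0 < _
      rw [hval]; linarith)
    exact this
  have h2 : ∀ᶠ τ : ℝ in 𝓝[>] 0, (1 + τ) * (c + τ) / ((1 - κ - 3 * τ) * (1 - τ) / (1 + τ) ^ 2) + τ <
      c / (1 - κ) + ε := h1.filter_mono nhdsWithin_le_nhds
  have h3 : ∀ᶠ τ : ℝ in 𝓝[>] 0, τ < min ((1 - κ) / 8) (1 / 4) :=
    (eventually_lt_nhds (lt_min (by linarith) (by norm_num))).filter_mono nhdsWithin_le_nhds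
  obtain ⟨τ, ⟨h4, h5⟩, h6⟩ := ((h2.and h3).and self_mem_nhdsWithin).exists
  refine ⟨τ, h6, ?_, ?_, h4.le⟩
  · have := h5.le.trans (min_le_left _ _)
    linarith
  · exact h5.le.trans (min_le_right _ _)

end Pool.Agent.Q287.NC
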