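import Mathlib
import Pool.Agent.Q179.CF.Induct
import Pool.Agent.H238R2.HY.Part

set_option autoImplicit false

/-!
# Colour classes chosen one by one with an exponential potential
-/

namespace Pool.Agent.Q287.NC

open Finset Pool.Agent.Q179.CF
open scoped Classical

set_option linter.unusedSectionVars false

variable {V : Type} [Fintype V]

/-- the potential -/
noncomputable def Phi (G : SimpleGraph V) (w : V → ℝ) (L : ℝ) (U : Finset V) (D : ℝ) : ℝ :=
  ∑ v ∈ U, w v * Real.exp (L * dg G U v / D)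

theorem dg_mono (G : SimpleGraph V) {S T : Finset V} (h : S ⊆ T) (v : V) :
    dg G S v ≤ dg G T v := by
  unfold dg
  exact Finset.sum_le_sum_of_subset_of_nonneg h fun z _ _ => e_nonneg G v z

theorem dg_nonneg (G : SimpleGraph V) (S : Finset V) (v : V) : 0 ≤ dg G S v :=
  Finset.sum_nonneg fun z _ => e_nonneg G v z

theorem dg_sdiff (G : SimpleGraph V) {I U : Finset V} (h : I ⊆ U) (v : V) :
    dg G (U \ I) v = dg G U v - dg G I v := by
  unfold dg
  rw [← Finset.sum_sdiff h]
  ring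

theorem exp_ineq {s y η : ℝ} (hs0 : 0 ≤ s) (hy0 : 0 ≤ y) (hs : s ≤ η) (hy : y ≤ η)
    (hη1 : η ≤ 1 / 2) : Real.exp (s - y) ≤ 1 + (1 + η) * s - (1 - η) * y := by
  have habs : |s - y| ≤ 1 := by
    rw [abs_le]; constructor <;> linarith
  have h1 := (abs_le.1 (Real.abs_exp_sub_one_sub_id_le habs)).2
  nlinarith [mul_nonneg hs0 (sub_nonneg.2 hs), mul_nonneg hy0 (sub_nonneg.2 hy),
    mul_nonneg hs0 hy0]

theorem wt_eq (G : SimpleGraph V) (ω : V → ℝ) (U I : Finset V) :
    Wt (fun u => ∑ v ∈ U, ω v * e G v u) I = ∑ v ∈ U, ω v * dg G I v := by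
  unfold Wt dg
  rw [Finset.sum_comm]
  apply Finset.sum_congr rfl
  intro v _
  rw [Finset.mul_sum]

theorem step (G : SimpleGraph V) (w : V → ℝ) (hw : ∀ v, 0 ≤ w v) (U : Finset V) (t : V → ℕ) (r : ℕ) (hr : 0 < r)
    (ht : ∀ v, t v < r) {D D' α L η γ : ℝ} (hL : 0 ≤ L) (hα : 0 ≤ α) (hη : 0 < η)
    (hη1 : η ≤ 1 / 2) (hD : α < D)
    (hdeg : ∀ v ∈ U, dg G U v ≤ D)
    (hpart : ∀ v ∈ U, ∀ y, dg G (U.filter (fun u => t u = y)) v ≤ D')
    (hI : ∀ y, ∀ ρ : V → ℝ, (∀ x, 0 ≤ ρ x) → ∃ I ⊆ U.filter (fun u => t u = y),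
      Ind G I ∧ γ * Wt ρ (U.filter (fun u => t u = y)) ≤ Wt ρ I)
    (hy : L * D' / (D - α) ≤ η) (hs : L * α / (D - α) ≤ η)
    (hmain : (1 + η) * (α / D) ≤ (1 - η) * (γ / r)) :
    ∃ I ⊆ U, Ind G I ∧ Phi G w L (U \ I) (D - α) ≤ Phi G w L U D := by
  have hD0 : 0 < D := lt_of_le_of_lt hα hD
  have hDa : 0 < D - α := by linarith
  have hrR : (0:ℝ) < r := by exact_mod_cast hr
  have hγr : 0 ≤ γ / r := by
    have h1 : 0 ≤ (1 + η) * (α / D) := by positivity
    have h2 : 0 ≤ (1 - η) * (γ / r) := h1.trans hmain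
    by_contra h3
    have h3' : γ / r < 0 := not_le.1 h3
    have : (1 - η) * (γ / r) < 0 := mul_neg_of_pos_of_neg (by linarith) h3'
    linarith
  have hγ : 0 ≤ γ := by
    have := mul_nonneg hγr hrR.le
    rwa [div_mul_cancel₀ _ hrR.ne'] at this
  set ω : V → ℝ := fun v => w v * Real.exp (L * dg G U v / D) with hω
  have hω0 : ∀ v, 0 ≤ ω v := fun v => mul_nonneg (hw v) (Real.exp_pos _).le
  set ρ : V → ℝ := fun u => ∑ v ∈ U, ω v * e G v u with hρ
  have hρ0 : ∀ x, 0 ≤ ρ x := fun x =>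
    Finset.sum_nonneg fun v _ => mul_nonneg (hω0 v) (e_nonneg G v x)
  -- a heavy part
  obtain ⟨y, hyr, hyw⟩ : ∃ y ∈ Finset.range r,
      Wt ρ U / r ≤ Wt ρ (U.filter (fun u => t u = y)) := by
    apply Finset.exists_le_of_sum_le (Finset.nonempty_range_iff.2 hr.ne')
    have h1 : ∑ y ∈ Finset.range r, Wt ρ (U.filter (fun u => t u = y)) = Wt ρ U := by
      unfold Wt
      exact Finset.sum_fiberwise_of_maps_to (fun v _ => Finset.mem_range.2 (ht v)) _
    rw [h1, Finset.sum_const, Finset.card_range, nsmul_eq_mul, mul_div_cancel₀ _ hrR.ne']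
  obtain ⟨I, hIs, hInd, hIw⟩ := hI y ρ hρ0
  have hIU : I ⊆ U := hIs.trans (Finset.filter_subset _ _)
  refine ⟨I, hIU, hInd, ?_⟩
  have hwU : Wt ρ U = ∑ v ∈ U, ω v * dg G U v := wt_eq G ω U U
  have hwI : Wt ρ I = ∑ v ∈ U, ω v * dg G I v := wt_eq G ω U I
  have hkey : γ / r * (∑ v ∈ U, ω v * dg G U v) ≤ ∑ v ∈ U, ω v * dg G I v := by
    rw [← hwU, ← hwI]
    refine le_trans ?_ hIw
    calc γ / r * Wt ρ U = γ * (Wt ρ U / r) := by ring
      _ ≤ γ * Wt ρ (U.filter (fun u => t u = y)) := mul_le_mul_of_nonneg_left hyw hγ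
  have hpt : ∀ v ∈ U, w v * Real.exp (L * dg G (U \ I) v / (D - α)) ≤
      ω v * (1 + (1 + η) * (L * α * dg G U v / (D * (D - α))) -
        (1 - η) * (L * dg G I v / (D - α))) := by
    intro v hv
    have hd0 := dg_nonneg G U v
    have hd1 := hdeg v hv
    have hx0 := dg_nonneg G I v
    have hx1 : dg G I v ≤ D' := (dg_mono G hIs v).trans (hpart v hv y)
    have e1 : L * dg G (U \ I) v / (D - α) = L * dg G U v / D +
        (L * α * dg G U v / (D * (D - α)) - L * dg G I v / (D - α)) := by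
      rw [dg_sdiff G hIU]
      field_simp
      ring
    rw [e1, Real.exp_add, ← mul_assoc]
    apply mul_le_mul_of_nonneg_left _ (hω0 v)
    apply exp_ineq _ _ _ _ hη1
    · positivity
    · positivity
    · refine le_trans ?_ hs
      rw [div_le_div_iff₀ (by positivity) hDa]
      have : L * α * dg G U v ≤ L * α * D := mul_le_mul_of_nonneg_left hd1 (by positivity)
      nlinarith
    · refine le_trans ?_ hy
      gcongr
  have hsum : ∑ v ∈ U, ω v * (1 + (1 + η) * (L * α * dg G U v / (D * (D - α))) -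
        (1 - η) * (L * dg G I v / (D - α))) =
      ∑ v ∈ U, ω v + L / (D - α) * ((1 + η) * (α / D) * (∑ v ∈ U, ω v * dg G U v) -
        (1 - η) * ∑ v ∈ U, ω v * dg G I v) := by
    rw [Finset.mul_sum, Finset.mul_sum, ← Finset.sum_sub_distrib, Finset.mul_sum,
      ← Finset.sum_add_distrib]
    apply Finset.sum_congr rfl
    intro v _
    field_simp
    ring
  have hneg : (1 + η) * (α / D) * (∑ v ∈ U, ω v * dg G U v) -
        (1 - η) * ∑ v ∈ U, ω v * dg G I v ≤ 0 := by
    have hS : 0 ≤ ∑ v ∈ U, ω v * dg G U v :=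
      Finset.sum_nonneg fun v _ => mul_nonneg (hω0 v) (dg_nonneg G U v)
    have h1 := mul_le_mul_of_nonneg_right hmain hS
    have h2 := mul_le_mul_of_nonneg_left hkey (show 0 ≤ 1 - η by linarith)
    nlinarith
  have hfin : Phi G w L (U \ I) (D - α) ≤
      ∑ v ∈ U, w v * Real.exp (L * dg G (U \ I) v / (D - α)) := by
    unfold Phi
    exact Finset.sum_le_sum_of_subset_of_nonneg Finset.sdiff_subset fun v _ _ =>
      mul_nonneg (hw v) (Real.exp_pos _).le
  refine hfin.trans ((Finset.sum_le_sum hpt).trans ?_)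
  rw [hsum]
  have : L / (D - α) * ((1 + η) * (α / D) * (∑ v ∈ U, ω v * dg G U v) -
        (1 - η) * ∑ v ∈ U, ω v * dg G I v) ≤ 0 :=
    mul_nonpos_of_nonneg_of_nonpos (by positivity) hneg
  unfold Phi
  linarith

theorem iterate (G : SimpleGraph V) (w : V → ℝ) (hw : ∀ v, 0 ≤ w v) {L α Dmin Dmax : ℝ} (hL : 0 ≤ L) (hα : 0 ≤ α) (hDmin : 0 < Dmin)
    (hstep : ∀ (U : Finset V) (D : ℝ), Dmin + α ≤ D → D ≤ Dmax → (∀ v ∈ U, dg G U v ≤ D) →
      ∃ I ⊆ U, Ind G I ∧ Phi G w L (U \ I) (D - α) ≤ Phi G w L U D) (k : ℕ) :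
    ∀ (U : Finset V) (D : ℝ), D ≤ Dmax → Dmin + k * α ≤ D → (∀ v ∈ U, dg G U v ≤ D) →
      ∃ (R W : Finset V) (f : V → ℕ), 
        (∀ v ∈ U, v ∉ R → v ∉ W → f v < k) ∧
        (∀ v ∈ U, v ∉ R → v ∉ W → ∀ w ∈ U, w ∉ R → w ∉ W → G.Adj v w → f v ≠ f w) ∧
        (∀ v ∈ W, dg G W v ≤ D - k * α) ∧
        Real.exp L * Wt w R ≤ Phi G w L U D := by
  induction k with
  | zero =>
    intro U D _ _ hdeg
    refine ⟨∅, U, fun _ => 0, fun v hv _ h => absurd hv h, fun v hv _ h => absurd hv h, ?_, ?_⟩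
    · intro v hv
      simpa using hdeg v hv
    · have : Wt w ∅ = 0 := Finset.sum_empty
      rw [this, mul_zero]
      exact Finset.sum_nonneg fun v _ => mul_nonneg (hw v) (Real.exp_pos _).le
  | succ k ih =>
    intro U D hDmax hD hdeg
    push_cast at hD
    have hka : 0 ≤ k * α := by positivity
    obtain ⟨I, hIU, hInd, hPhi⟩ := hstep U D (by nlinarith) hDmax hdeg
    set T := U \ I with hT
    set Q := T.filter (fun v => D - α < dg G T v) with hQ
    set U₂ := T.filter (fun v => ¬ (D - α < dg G T v)) with hU₂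
    have hDa : 0 < D - α := by nlinarith
    have hsub : U₂ ⊆ T := Finset.filter_subset _ _
    obtain ⟨R, W, f, h1, h2, h3, h4⟩ := ih U₂ (D - α) (by linarith) (by nlinarith) (by
      intro v hv
      have := (Finset.mem_filter.1 hv).2
      exact (dg_mono G hsub v).trans (not_lt.1 this))
    have hmem : ∀ v ∈ U, v ∉ R ∪ Q → v ∉ I → v ∈ U₂ := by
      intro v hv hvR hvI
      rw [Finset.mem_union, not_or] at hvR
      have hvT : v ∈ T := Finset.mem_sdiff.2 ⟨hv, hvI⟩
      rw [hU₂, Finset.mem_filter]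
      refine ⟨hvT, fun hc => hvR.2 (Finset.mem_filter.2 ⟨hvT, hc⟩)⟩
    refine ⟨R ∪ Q, W, fun v => if v ∈ I then k else f v, ?_, ?_, ?_, ?_⟩
    · intro v hv hvR hvW
      by_cases hvI : v ∈ I
      · simp [hvI]
      · have hvR' : v ∉ R := fun h => hvR (Finset.mem_union_left _ h)
        have := h1 v (hmem v hv hvR hvI) hvR' hvW
        simp only [hvI, if_false]
        omega
    · intro v hv hvR hvW w hw hwR hwW hadj
      have hvR' : v ∉ R := fun h => hvR (Finset.mem_union_left _ h)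
      have hwR' : w ∉ R := fun h => hwR (Finset.mem_union_left _ h)
      by_cases hvI : v ∈ I <;> by_cases hwI : w ∈ I
      · exact absurd hadj (hInd v hvI w hwI)
      · simp only [hvI, hwI, if_true, if_false]
        have := h1 w (hmem w hw hwR hwI) hwR' hwW
        omega
      · simp only [hvI, hwI, if_true, if_false]
        have := h1 v (hmem v hv hvR hvI) hvR' hvW
        omega
      · simp only [hvI, hwI, if_false]
        exact h2 v (hmem v hv hvR hvI) hvR' hvW w (hmem w hw hwR hwI) hwR' hwW hadj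
    · intro v hv
      have := h3 v hv
      push_cast
      linarith
    · have hc : Wt w (R ∪ Q) ≤ Wt w R + Wt w Q := by
        unfold Wt
        rw [← Finset.sum_union_inter]
        have : 0 ≤ ∑ v ∈ R ∩ Q, w v := Finset.sum_nonneg fun v _ => hw v
        linarith
      have hQ1 : Real.exp L * Wt w Q ≤ ∑ v ∈ Q, w v * Real.exp (L * dg G T v / (D - α)) := by
        unfold Wt
        rw [Finset.mul_sum]
        apply Finset.sum_le_sum
        intro v hv
        rw [mul_comm]
        apply mul_le_mul_of_nonneg_left _ (hw v)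
        apply Real.exp_le_exp.2
        have h5 := (Finset.mem_filter.1 hv).2
        rw [le_div_iff₀ hDa]
        exact mul_le_mul_of_nonneg_left h5.le hL
      have hU1 : Phi G w L U₂ (D - α) ≤ ∑ v ∈ U₂, w v * Real.exp (L * dg G T v / (D - α)) := by
        unfold Phi
        apply Finset.sum_le_sum
        intro v _
        apply mul_le_mul_of_nonneg_left _ (hw v)
        apply Real.exp_le_exp.2
        have := dg_mono G hsub v
        gcongr
      have hsplit : ∑ v ∈ Q, w v * Real.exp (L * dg G T v / (D - α)) +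
          ∑ v ∈ U₂, w v * Real.exp (L * dg G T v / (D - α)) = Phi G w L T (D - α) := by
        unfold Phi
        exact Finset.sum_filter_add_sum_filter_not T _ _
      have hE := Real.exp_pos L
      calc Real.exp L * Wt w (R ∪ Q) ≤ Real.exp L * (Wt w R + Wt w Q) :=
            mul_le_mul_of_nonneg_left hc hE.le
        _ = Real.exp L * Wt w R + Real.exp L * Wt w Q := by ring
        _ ≤ Phi G w L U₂ (D - α) + ∑ v ∈ Q, w v * Real.exp (L * dg G T v / (D - α)) :=
            add_le_add h4 hQ1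
        _ ≤ Phi G w L T (D - α) := by rw [← hsplit]; linarith
        _ ≤ Phi G w L U D := hPhi

/-- greedy colouring -/
theorem greedy (G : SimpleGraph V) (d : ℝ) (W : Finset V) :
    (∀ v ∈ W, dg G W v ≤ d) →
    ∃ g : V → ℕ, (∀ v ∈ W, g v ≤ ⌊d⌋₊) ∧ ∀ v ∈ W, ∀ w ∈ W, G.Adj v w → g v ≠ g w := by
  induction W using Finset.induction_on with
  | empty => intro _; exact ⟨fun _ => 0, by simp, by simp⟩
  | insert a W ha ih =>
    intro hd
    obtain ⟨g, hg1, hg2⟩ := ih (fun v hv => (dg_mono G (Finset.subset_insert a W) v).trans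
      (hd v (Finset.mem_insert_of_mem hv)))
    have h1 : dg G (insert a W) a ≤ d := hd a (Finset.mem_insert_self a W)
    have h2 : ((nb G (insert a W) a).card : ℝ) ≤ d := by rw [card_nb]; exact h1
    have h3 : (nb G (insert a W) a).card ≤ ⌊d⌋₊ := Nat.le_floor h2
    obtain ⟨c, hc, hc2⟩ : ∃ c ∈ Finset.range (⌊d⌋₊ + 1),
        c ∉ (nb G (insert a W) a).image g := by
      apply Finset.exists_mem_notMem_of_card_lt_card
      rw [Finset.card_range]
      exact lt_of_le_of_lt Finset.card_image_le (by omega)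
    refine ⟨Function.update g a c, ?_, ?_⟩
    · intro v hv
      by_cases hva : v = a
      · subst hva
        rw [Function.update_self]
        have := Finset.mem_range.1 hc
        omega
      · rw [Function.update_of_ne hva]
        exact hg1 v (Finset.mem_of_mem_insert_of_ne hv hva)
    · intro v hv w hw hadj
      by_cases hva : v = a <;> by_cases hwa : w = a
      · subst hva; subst hwa; exact absurd hadj (G.loopless.irrefl _)
      · subst hva
        rw [Function.update_self, Function.update_of_ne hwa]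
        intro h
        apply hc2
        rw [Finset.mem_image]
        exact ⟨w, mem_nb.2 ⟨hw, hadj⟩, h.symm⟩
      · subst hwa
        rw [Function.update_self, Function.update_of_ne hva]
        intro h
        apply hc2
        rw [Finset.mem_image]
        exact ⟨v, mem_nb.2 ⟨hv, hadj.symm⟩, h⟩
      · rw [Function.update_of_ne hva, Function.update_of_ne hwa]
        exact hg2 v (Finset.mem_of_mem_insert_of_ne hv hva) w
          (Finset.mem_of_mem_insert_of_ne hw hwa) hadj

end Pool.Agent.Q287.NC
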