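import Mathlib
import Pool.Agent.Q287.NC.Step

set_option autoImplicit false

/-!
# Balanced partitions of a set of vertices, and independent sets from fractional colourings
-/

namespace Pool.Agent.Q287.NC

open Finset Pool.Agent.Q179.CF
open scoped Classical

set_option linter.unusedSectionVars false

variable {V : Type} [Fintype V]

/-- the edges inside `U` -/
def inside (G : SimpleGraph V) (U : Finset V) : SimpleGraph V where
  Adj x y := G.Adj x y ∧ x ∈ U ∧ y ∈ U
  symm := ⟨fun _ _ h => ⟨h.1.symm, h.2.2, h.2.1⟩⟩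
  loopless := ⟨fun _ h => G.loopless.irrefl _ h.1⟩

theorem inside_adj (G : SimpleGraph V) (U : Finset V) (x y : V) :
    (inside G U).Adj x y ↔ G.Adj x y ∧ x ∈ U ∧ y ∈ U := Iff.rfl

theorem dg_eq_card (G : SimpleGraph V) (S : Finset V) (v : V) :
    dg G S v = ((S.filter (fun u => G.Adj v u)).card : ℝ) := by
  rw [← card_nb]; rfl

theorem balanced (G : SimpleGraph V) (U : Finset V) (r : ℕ) (hr : 1 ≤ r) (D x : ℝ) (hD1 : 2 ≤ D)
    (hx : 0 ≤ x) (hx1 : x ≤ 1) (hdeg : ∀ v ∈ U, dg G U v ≤ D)
    (h4 : 4 * (r * Real.exp (-(x ^ 2 * (D - 1) / (3 * r)))) * (D * D) ≤ 1) :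
    ∃ t : V → ℕ, (∀ v, t v < r) ∧ ∀ v ∈ U, ∀ y,
      dg G (U.filter (fun u => t u = y)) v ≤ (1 + x) * D / r := by
  set n : ℕ := ⌊D⌋₊ with hn
  have hn1 : (n:ℝ) ≤ D := Nat.floor_le (by linarith)
  have hn2 : D - 1 ≤ (n:ℝ) := by
    have := Nat.lt_floor_add_one D
    linarith
  have hrR : (0:ℝ) < r := by exact_mod_cast hr
  have hn3 : 1 ≤ n := by
    rw [hn]
    exact Nat.le_floor (by push_cast; linarith)
  have hd : ∀ v, (inside G U).degree v ≤ n := by
    intro v
    by_cases hv : v ∈ U
    · apply Nat.le_floor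
      refine le_trans ?_ (hdeg v hv)
      rw [dg_eq_card]
      rw [← SimpleGraph.card_neighborFinset_eq_degree]
      apply le_of_eq
      congr 2
      ext u
      rw [SimpleGraph.mem_neighborFinset, inside_adj, Finset.mem_filter]
      tauto
    · have : (inside G U).degree v = 0 := by
        rw [← SimpleGraph.card_neighborFinset_eq_degree, Finset.card_eq_zero]
        ext u
        rw [SimpleGraph.mem_neighborFinset, inside_adj]
        simp [hv]
      omega
  obtain ⟨t, ht1, ht2⟩ := Pool.Agent.H238R2.HY.partition (inside G U) r n hr hn3 hd x hx hx1 (by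
    refine le_trans ?_ h4
    have e1 : Real.exp (-(x ^ 2 * (n:ℝ) / (3 * r))) ≤ Real.exp (-(x ^ 2 * (D - 1) / (3 * r))) := by
      apply Real.exp_le_exp.2
      apply neg_le_neg
      gcongr
    push_cast
    have e2 : (n:ℝ) * n ≤ D * D := mul_le_mul hn1 hn1 (by positivity) (by linarith)
    have e3 : 0 ≤ Real.exp (-(x ^ 2 * (n:ℝ) / (3 * r))) := (Real.exp_pos _).le
    gcongr)
  refine ⟨t, ht1, ?_⟩
  intro v hv y
  have h5 := ht2 v y
  have h6 : dg G (U.filter (fun u => t u = y)) v =
      ((((inside G U).neighborFinset v).filter (fun u => t u = y)).card : ℝ) := by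
    rw [dg_eq_card]
    congr 2
    ext u
    rw [Finset.mem_filter, Finset.mem_filter, Finset.mem_filter, SimpleGraph.mem_neighborFinset,
      inside_adj]
    tauto
  rw [h6]
  have h7 : ((((inside G U).neighborFinset v).filter (fun u => t u = y)).card : ℝ) ≤
      ((⌊(1 + x) * (n:ℝ) / r⌋₊ : ℕ) : ℝ) := by exact_mod_cast h5
  refine h7.trans ((Nat.floor_le (by positivity)).trans ?_)
  gcongr

end Pool.Agent.Q287.NC
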