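import Mathlib
import Pool.Agent.Q287.NC.Bal

set_option autoImplicit false

/-!
# Independent sets from fractional colourings
-/

namespace Pool.Agent.Q287.NC

open Finset Pool.Agent.Q179.CF
open scoped Classical

set_option linter.unusedSectionVars false

/-- fractional colourings -/
def FC {V : Type} [Fintype V] (G : SimpleGraph V) (w : Finset V → ℝ) : Prop :=
  (∀ I, 0 ≤ w I) ∧ (∀ I, w I ≠ 0 → G.IsIndepSet (I : Set V)) ∧
    ∀ v : V, 1 ≤ ∑ I : Finset V, if v ∈ I then w I else 0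

theorem exists_heavy {V : Type} [Fintype V] (G : SimpleGraph V) (w : Finset V → ℝ) (hw : FC G w)
    (x : ℝ) (hx : ∑ I, w I ≤ x) (ρ : V → ℝ) (hρ : ∀ v, 0 ≤ ρ v) :
    ∃ I, Ind G I ∧ Wt ρ univ ≤ x * Wt ρ I := by
  obtain ⟨hw0, hw1, hw2⟩ := hw
  obtain ⟨I, hI, hmax⟩ := Finset.exists_max_image (Finset.univ.filter (fun I : Finset V => Ind G I))
    (fun I => Wt ρ I) ⟨∅, Finset.mem_filter.2 ⟨Finset.mem_univ _, fun a ha => absurd ha (by simp)⟩⟩
  refine ⟨I, (Finset.mem_filter.1 hI).2, ?_⟩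
  have hM : 0 ≤ Wt ρ I := Finset.sum_nonneg fun v _ => hρ v
  have h1 : Wt ρ univ ≤ ∑ v, ρ v * ∑ J : Finset V, (if v ∈ J then w J else 0) := by
    unfold Wt
    apply Finset.sum_le_sum
    intro v _
    calc ρ v = ρ v * 1 := (mul_one _).symm
      _ ≤ _ := mul_le_mul_of_nonneg_left (hw2 v) (hρ v)
  have h2 : ∑ v, ρ v * ∑ J : Finset V, (if v ∈ J then w J else 0) = ∑ J, w J * Wt ρ J := by
    simp only [Finset.mul_sum]
    rw [Finset.sum_comm]
    apply Finset.sum_congr rfl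
    intro J _
    unfold Wt
    rw [Finset.mul_sum]
    have : ∀ v, ρ v * (if v ∈ J then w J else 0) = if v ∈ J then w J * ρ v else 0 := by
      intro v
      split_ifs
      · ring
      · ring
    simp only [this]
    rw [Finset.sum_ite_mem, Finset.univ_inter]
  have h3 : ∑ J, w J * Wt ρ J ≤ ∑ J, w J * Wt ρ I := by
    apply Finset.sum_le_sum
    intro J _
    by_cases hJ : w J = 0
    · rw [hJ]; simp
    · apply mul_le_mul_of_nonneg_left _ (hw0 J)
      apply hmax
      rw [Finset.mem_filter]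
      refine ⟨Finset.mem_univ _, ?_⟩
      intro a ha b hb hab
      exact hw1 J hJ ha hb hab.ne hab
  rw [← Finset.sum_mul] at h3
  calc Wt ρ univ ≤ (∑ J, w J) * Wt ρ I := by rw [h2] at h1; exact h1.trans h3
    _ ≤ x * Wt ρ I := mul_le_mul_of_nonneg_right hx hM

theorem free_induce {k : ℕ} (F : SimpleGraph (Fin k)) {V : Type} (G : SimpleGraph V)
    (hG : F.Free G) (s : Set V) : F.Free (G.induce s) := by
  intro hc
  exact hG (hc.trans ⟨(SimpleGraph.Embedding.induce s).toCopy⟩)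

/-- hereditary form of the fractional bound -/
theorem heavy_of_frac {k : ℕ} (F : SimpleGraph (Fin k)) (b : ℝ) (hb : 0 < b)
    (h : ∃ Δ₀ : ℕ, ∀ Δ : ℕ, Δ₀ ≤ Δ → ∀ (V : Type) [Fintype V] (G : SimpleGraph V)
      [DecidableRel G.Adj], F.Free G → G.maxDegree ≤ Δ →
      ∃ w : Finset V → ℝ, FC G w ∧ ∑ I, w I ≤ b * ((Δ : ℝ) / Real.log (Δ : ℝ))) :
    ∃ D₁ : ℝ, 3 ≤ D₁ ∧ ∀ (V : Type) [Fintype V] (G : SimpleGraph V), F.Free G →
      ∀ (A : Finset V) (D : ℝ), D₁ ≤ D → (∀ v ∈ A, dg G A v ≤ D) → ∀ ρ : V → ℝ, (∀ v, 0 ≤ ρ v) →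
      ∃ I ⊆ A, Ind G I ∧ (1 / b * (Real.log D / D)) * Wt ρ A ≤ Wt ρ I := by
  obtain ⟨Δ₀, hΔ₀⟩ := h
  refine ⟨max 3 (Δ₀ + 1), le_max_left _ _, ?_⟩
  intro V _ G hG A D hD hdeg ρ hρ
  have hD3 : 3 ≤ D := (le_max_left _ _).trans hD
  have hD4 : (Δ₀:ℝ) + 1 ≤ D := (le_max_right _ _).trans hD
  set m : ℕ := ⌊D⌋₊ with hm
  have hmD : (m:ℝ) ≤ D := Nat.floor_le (by linarith)
  have hm3 : 3 ≤ m := Nat.le_floor (by push_cast; linarith)
  have hm0 : Δ₀ ≤ m := Nat.le_floor (by linarith)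
  have hm3R : (3:ℝ) ≤ m := by exact_mod_cast hm3
  have hlogm : 0 < Real.log (m:ℝ) := Real.log_pos (by linarith)
  set G' := G.induce (A : Set V) with hG'
  have hmax : G'.maxDegree ≤ m := by
    apply SimpleGraph.maxDegree_le_of_forall_degree_le
    intro v
    apply Nat.le_floor
    refine le_trans ?_ (hdeg v v.2)
    rw [← card_nb, ← SimpleGraph.card_neighborFinset_eq_degree]
    have hsub : (G'.neighborFinset v).map (Function.Embedding.subtype _) ⊆ nb G A v := by
      intro u hu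
      rw [Finset.mem_map] at hu
      obtain ⟨u', hu', rfl⟩ := hu
      rw [SimpleGraph.mem_neighborFinset] at hu'
      rw [mem_nb]
      exact ⟨u'.2, hu'⟩
    have := Finset.card_le_card hsub
    rw [Finset.card_map] at this
    exact_mod_cast this
  obtain ⟨w, hw, hw2⟩ := hΔ₀ m hm0 _ G' (free_induce F G hG _) hmax
  obtain ⟨I, hI, hI2⟩ := exists_heavy G' w hw _ hw2 (fun v => ρ v) (fun v => hρ v)
  refine ⟨I.map (Function.Embedding.subtype _), ?_, ?_, ?_⟩
  · intro u hu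
    rw [Finset.mem_map] at hu
    obtain ⟨u', _, rfl⟩ := hu
    exact u'.2
  · intro a ha b hb hab
    rw [Finset.mem_map] at ha hb
    obtain ⟨a', ha', rfl⟩ := ha
    obtain ⟨b', hb', rfl⟩ := hb
    exact hI a' ha' b' hb' hab
  · have e1 : Wt ρ A = Wt (fun v : ((A : Set V) : Type) => ρ v) univ := by
      unfold Wt
      exact Finset.sum_subtype A (by simp) ρ
    have e2 : Wt ρ (I.map (Function.Embedding.subtype _)) =
        Wt (fun v : ((A : Set V) : Type) => ρ v) I := by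
      unfold Wt
      rw [Finset.sum_map]
      rfl
    rw [e1, e2]
    have hlog : Real.log D / D ≤ Real.log (m:ℝ) / m := by
      have he : Real.exp 1 ≤ 3 := by
        have := Real.exp_one_lt_d9
        linarith
      exact Real.log_div_self_antitoneOn (show Real.exp 1 ≤ (m:ℝ) by linarith)
        (show Real.exp 1 ≤ D by linarith) hmD
    have hW : 0 ≤ Wt (fun v : ((A : Set V) : Type) => ρ v) univ :=
      Finset.sum_nonneg fun v _ => hρ v
    calc 1 / b * (Real.log D / D) * Wt (fun v : ((A : Set V) : Type) => ρ v) univ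
        ≤ 1 / b * (Real.log (m:ℝ) / m) * Wt (fun v : ((A : Set V) : Type) => ρ v) univ := by
          gcongr
      _ ≤ 1 / b * (Real.log (m:ℝ) / m) * (b * ((m : ℝ) / Real.log (m : ℝ)) *
            Wt (fun v : ((A : Set V) : Type) => ρ v) I) := by
          apply mul_le_mul_of_nonneg_left hI2
          positivity
      _ = Wt (fun v : ((A : Set V) : Type) => ρ v) I := by
          field_simp

end Pool.Agent.Q287.NC
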