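import Mathlib
import Pool.Agent.Q179.CF.All
import Pool.Agent.H167R2.FKMinimax
import Pool.Agent.Q287.NC.Frac

set_option autoImplicit false

/-!
# Linear programming duality and three-colourable graphs

The two theorems of this file are those of helper179 in
`Pool.Agent.Results.MP_349e33_co.FractionalThreeColourable`, repeated here for `FC`.
-/

namespace Pool.Agent.Q287.NC

open Finset Pool.Agent.Q179.CF
open scoped Classical

/-- an `F`-free graph has no `K_{t,t,t}` if `F` is three-colourable with at most `t` vertices -/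
theorem free3_of_free {k : ℕ} (F : SimpleGraph (Fin k)) (hF : F.Colorable 3) {V : Type}
    (G : SimpleGraph V) (hG : F.Free G) (t : ℕ) (hkt : k ≤ t) : Free3 G t := by
  rintro ⟨a, b, c, ha, hb, hc, hab, hac, hbc⟩
  apply hG
  obtain ⟨C⟩ := hF
  set f : Fin 3 → Fin t → V := ![a, b, c] with hf
  have hinj : ∀ i, Function.Injective (f i) := by
    intro i
    fin_cases i
    · exact ha
    · exact hb
    · exact hc
  have hadj : ∀ i j, i ≠ j → ∀ x y, G.Adj (f i x) (f j y) := by
    intro i j hij x y
    fin_cases i <;> fin_cases j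
    · exact absurd rfl hij
    · exact hab x y
    · exact hac x y
    · exact (hab y x).symm
    · exact absurd rfl hij
    · exact hbc x y
    · exact (hac y x).symm
    · exact (hbc y x).symm
    · exact absurd rfl hij
  refine ⟨⟨⟨fun v => f (C v) (Fin.castLE hkt v), ?_⟩, ?_⟩⟩
  · intro u v huv
    exact hadj _ _ (C.valid huv) _ _
  · intro u v huv
    by_cases h : C u = C v
    · have h1 : f (C u) (Fin.castLE hkt u) = f (C v) (Fin.castLE hkt v) := huv
      rw [← h] at h1
      exact Fin.castLE_injective hkt (hinj _ h1)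
    · exact absurd huv (hadj _ _ h _ _).ne

/-- linear programming duality -/
theorem exists_frac {V : Type} [Fintype V] (G : SimpleGraph V) {γ : ℝ} (hγ : 0 < γ)
    (h : ∀ ρ : V → ℝ, (∀ x, 0 ≤ ρ x) → ∃ I, Ind G I ∧ γ * Wt ρ Finset.univ ≤ Wt ρ I) :
    ∃ w : Finset V → ℝ, FC G w ∧ ∑ I, w I = 1 / γ := by
  set n := Fintype.card V with hn
  have eq : V ≃ Fin n := Fintype.equivFin V
  set ind : Finset V → (Fin n → ℝ) := fun I j => if eq.symm j ∈ I then -1 else 0 with hind
  have hindinj : Function.Injective ind := by
    intro I J hIJ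
    ext v
    have := congrFun hIJ (eq v)
    simp only [hind, Equiv.symm_apply_apply] at this
    by_cases h1 : v ∈ I <;> by_cases h2 : v ∈ J
    · simp [h1, h2]
    · rw [if_pos h1, if_neg h2] at this; norm_num at this
    · rw [if_neg h1, if_pos h2] at this; norm_num at this
    · simp [h1, h2]
  set Is : Finset (Finset V) := Finset.univ.filter (fun I => Ind G I) with hIs
  obtain ⟨w, hw0, hw1, hw2⟩ := _root_.H167FK.minimax (Is.image ind) (-γ) (by
    intro p hp
    obtain ⟨I, hI, hI2⟩ := h (fun v => p (eq v)) (fun v => hp _)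
    refine ⟨ind I, Finset.mem_image_of_mem _ (Finset.mem_filter.2 ⟨Finset.mem_univ _, hI⟩), ?_⟩
    have e1 : ∑ j, p j * ind I j = - Wt (fun v => p (eq v)) I := by
      rw [← eq.sum_comp]
      simp only [hind, Equiv.symm_apply_apply, mul_ite, mul_neg, mul_one, mul_zero]
      unfold Wt
      rw [Finset.sum_ite_mem, Finset.univ_inter, Finset.sum_neg_distrib]
    have e2 : ∑ j, p j = Wt (fun v => p (eq v)) Finset.univ := by
      unfold Wt
      rw [eq.sum_comp]
    rw [e1, e2]
    linarith)
  rw [Finset.sum_image (fun a _ b _ hab => hindinj hab)] at hw1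
  refine ⟨fun I => if Ind G I then w (ind I) / γ else 0, ⟨?_, ?_, ?_⟩, ?_⟩
  · intro I
    dsimp only
    split_ifs with hI
    · exact div_nonneg (hw0 _ (Finset.mem_image_of_mem _
        (Finset.mem_filter.2 ⟨Finset.mem_univ _, hI⟩))) hγ.le
    · exact le_rfl
  · intro I hI
    dsimp only at hI
    split_ifs at hI with hI2
    · intro x hx y hy _
      exact hI2 x hx y hy
    · exact absurd rfl hI
  · intro v
    have h1 := hw2 (eq v)
    rw [Finset.sum_image (fun a _ b _ hab => hindinj hab)] at h1
    have e1 : ∑ I ∈ Is, w (ind I) * ind I (eq v) =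
        -(γ * ∑ I : Finset V, if v ∈ I then (if Ind G I then w (ind I) / γ else 0) else 0) := by
      rw [hIs, Finset.sum_filter, Finset.mul_sum, ← Finset.sum_neg_distrib]
      apply Finset.sum_congr rfl
      intro I _
      simp only [hind, Equiv.symm_apply_apply]
      by_cases a1 : Ind G I <;> by_cases a2 : v ∈ I
      · rw [if_pos a1, if_pos a2, if_pos a2, if_pos a1]
        field_simp
      · rw [if_pos a1, if_neg a2, if_neg a2]
        simp
      · rw [if_neg a1, if_pos a2, if_neg a1]
        simp
      · rw [if_neg a1, if_neg a2]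
        simp
    rw [e1] at h1
    have h2 : γ * 1 ≤
        γ * ∑ I : Finset V, if v ∈ I then (if Ind G I then w (ind I) / γ else 0) else 0 := by
      linarith
    exact le_of_mul_le_mul_left h2 hγ
  · rw [← Finset.sum_filter, ← Finset.sum_div, hw1]


end Pool.Agent.Q287.NC
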