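import Mathlib
import Pool.Agent.Q287.NC.Frac
import Pool.Agent.Q287.NC.Par

set_option autoImplicit false

/-!
# Colouring almost all vertices
-/

namespace Pool.Agent.Q287.NC

open Finset Pool.Agent.Q179.CF
open scoped Classical

set_option linter.unusedSectionVars false

theorem near {k : ℕ} (F : SimpleGraph (Fin k)) (κ τ b : ℝ) (hκ0 : 0 < κ) (hκ1 : κ < 1)
    (hτ0 : 0 < τ) (hτ : 8 * τ ≤ 1 - κ) (hb : 0 < b)
    (h : ∃ Δ₀ : ℕ, ∀ Δ : ℕ, Δ₀ ≤ Δ → ∀ (V : Type) [Fintype V] (G : SimpleGraph V)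
      [DecidableRel G.Adj], F.Free G → G.maxDegree ≤ Δ →
      ∃ w : Finset V → ℝ, FC G w ∧ ∑ I, w I ≤ b * ((Δ : ℝ) / Real.log (Δ : ℝ))) :
    ∃ X : ℝ, 3 ≤ X ∧ ∀ x : ℝ, X ≤ x → ∀ (V : Type) [Fintype V] (G : SimpleGraph V), F.Free G →
      (∀ v, dg G univ v ≤ x) → ∀ w : V → ℝ, (∀ v, 0 ≤ w v) →
      ∃ (R : Finset V) (m : ℕ) (f : V → ℕ),
        (∀ v, v ∉ R → f v < m) ∧ (∀ v, v ∉ R → ∀ w, w ∉ R → G.Adj v w → f v ≠ f w) ∧
        (m : ℝ) ≤ ((1 + τ) * b / ((1 - κ - 3 * τ) * (1 - τ) / (1 + τ) ^ 2) + τ) *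
          (x / Real.log x) ∧
        Wt w R ≤ Real.exp (-(x ^ κ)) * Wt w univ := by
  obtain ⟨D₁, hD₁3, hheavy⟩ := heavy_of_frac F b hb h
  obtain ⟨X, hX3, hX⟩ := params κ τ b D₁ hκ0 hκ1 hτ0 hτ hb
  refine ⟨X, hX3, ?_⟩
  intro x hx V _ G hG hdegG w hw
  obtain ⟨p1, p2, p3, p4, p5, p6, p7⟩ := hX x hx
  have hx3 : 3 ≤ x := hX3.trans hx
  have hx0 : 0 < x := by linarith
  have hx1 : 1 ≤ x := by linarith
  have hlog : 0 < Real.log x := Real.log_pos (by linarith)
  set θ : ℝ := (1 - κ - 3 * τ) * (1 - τ) / (1 + τ) ^ 2 with hθ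
  have hs1 : 0 < 1 - κ - 3 * τ := by linarith
  have h1τ : 0 < 1 - τ := by linarith
  have hθ0 : 0 < θ := by positivity
  have hθ1 : θ ≤ 1 := by
    rw [hθ, div_le_one (by positivity)]
    have e1 : (1 - κ - 3 * τ) * (1 - τ) ≤ 1 * 1 :=
      mul_le_mul (by linarith) (by linarith) h1τ.le zero_le_one
    have e2 : (1 + τ) ^ 2 = 1 + 2 * τ + τ ^ 2 := by ring
    have e3 := sq_nonneg τ
    linarith
  set α : ℝ := θ * (1 / b * Real.log x) with hα
  have hα0 : 0 < α := by positivity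
  have hα1 : α ≤ 1 / b * Real.log x := by
    exact mul_le_of_le_one_left (by positivity) hθ1
  set Dmin : ℝ := x ^ (1 - τ) with hDmin
  have hDmin0 : 0 < Dmin := Real.rpow_pos_of_pos hx0 _
  set r : ℕ := ⌈x ^ (κ + τ)⌉₊ with hr
  have hxκτ : 1 ≤ x ^ (κ + τ) := Real.one_le_rpow hx1 (by linarith)
  have hr1 : x ^ (κ + τ) ≤ r := Nat.le_ceil _
  have hr2 : (r:ℝ) ≤ 2 * x ^ (κ + τ) := by
    have := (Nat.ceil_lt_add_one (show 0 ≤ x ^ (κ + τ) by linarith)).le
    rw [hr]; linarith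
  have hrR : (1:ℝ) ≤ r := hxκτ.trans hr1
  have hrR0 : (0:ℝ) < r := by linarith
  have hr0 : 1 ≤ r := by exact_mod_cast hrR
  have hDr : x ^ (1 - κ - 3 * τ) ≤ Dmin / r := by
    rw [le_div_iff₀ hrR0]
    calc x ^ (1 - κ - 3 * τ) * r ≤ x ^ (1 - κ - 3 * τ) * (2 * x ^ (κ + τ)) := by gcongr
      _ = 2 * (x ^ (1 - κ - 3 * τ) * x ^ (κ + τ)) := by ring
      _ = 2 * x ^ (1 - 2 * τ) := by rw [← Real.rpow_add hx0]; ring_nf
      _ ≤ x ^ τ * x ^ (1 - 2 * τ) := by gcongr
      _ = Dmin := by rw [← Real.rpow_add hx0, hDmin]; ring_nf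
  set L : ℝ := 4 / τ * x ^ κ with hL
  have hxκ0 : 0 < x ^ κ := Real.rpow_pos_of_pos hx0 _
  have hL0 : 0 < L := by positivity
  set D0 : ℝ := (1 + τ) * x with hD0
  have hD0x : D0 ≤ 2 * x := mul_le_mul_of_nonneg_right (by linarith) hx0.le
  have hxD0 : x ≤ D0 := le_mul_of_one_le_left hx0.le (by linarith)
  have hDminx : Dmin ≤ x := by
    calc Dmin ≤ x ^ (1:ℝ) := Real.rpow_le_rpow_of_exponent_le hx1 (by linarith)
      _ = x := Real.rpow_one x
  have hDmin3 : 3 ≤ Dmin := by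
    calc (3:ℝ) ≤ D₁ := hD₁3
      _ ≤ _ := p2
      _ ≤ Dmin / r := hDr
      _ ≤ Dmin := div_le_self hDmin0.le hrR
  have hαD : α ≤ Dmin := hα1.trans p6
  -- one step
  have hstep : ∀ (U : Finset V) (D : ℝ), Dmin + α ≤ D → D ≤ D0 → (∀ v ∈ U, dg G U v ≤ D) →
      ∃ I ⊆ U, Ind G I ∧ Phi G w L (U \ I) (D - α) ≤ Phi G w L U D := by
    intro U D hD hD' hdeg
    have hDpos : 0 < D := by linarith
    have hDa : 0 < D - α := by linarith
    have hDDmin : Dmin ≤ D := by linarith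
    obtain ⟨t, ht1, ht2⟩ := balanced G U r hr0 D τ (by linarith) hτ0.le (by linarith) hdeg (by
      have e1 : τ ^ 2 / 6 * x ^ (1 - κ - 3 * τ) ≤ τ ^ 2 * (D - 1) / (3 * r) := by
        calc τ ^ 2 / 6 * x ^ (1 - κ - 3 * τ) ≤ τ ^ 2 / 6 * (Dmin / r) := by gcongr
          _ = τ ^ 2 * (Dmin / 2) / (3 * r) := by field_simp; ring
          _ ≤ τ ^ 2 * (D - 1) / (3 * r) := by
            gcongr
            linarith
      have e2 : Real.exp (-(τ ^ 2 * (D - 1) / (3 * r))) ≤
          Real.exp (-(τ ^ 2 / 6 * x ^ (1 - κ - 3 * τ))) :=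
        Real.exp_le_exp.2 (neg_le_neg e1)
      have e3 : (r:ℝ) ≤ 2 * x := by
        refine hr2.trans ?_
        have : x ^ (κ + τ) ≤ x ^ (1:ℝ) := Real.rpow_le_rpow_of_exponent_le hx1 (by linarith)
        rw [Real.rpow_one] at this
        linarith
      have e4 : D * D ≤ 4 * x ^ 2 := by
        calc D * D ≤ (2 * x) * (2 * x) := mul_self_le_mul_self hDpos.le (hD'.trans hD0x)
          _ = 4 * x ^ 2 := by ring
      have e5 : 0 < Real.exp (-(τ ^ 2 * (D - 1) / (3 * r))) := Real.exp_pos _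
      calc 4 * (r * Real.exp (-(τ ^ 2 * (D - 1) / (3 * r)))) * (D * D)
          ≤ 4 * (2 * x * Real.exp (-(τ ^ 2 / 6 * x ^ (1 - κ - 3 * τ)))) * (4 * x ^ 2) := by
            gcongr
        _ = 32 * x ^ 3 * Real.exp (-(τ ^ 2 / 6 * x ^ (1 - κ - 3 * τ))) := by ring
        _ ≤ 1 := p3)
    set D' : ℝ := (1 + τ) * D / r with hD'
    have hD'1 : x ^ (1 - κ - 3 * τ) ≤ D' := by
      refine hDr.trans ?_
      have e6 : Dmin ≤ (1 + τ) * D := hDDmin.trans (le_mul_of_one_le_left hDpos.le (by linarith))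
      exact div_le_div_of_nonneg_right e6 hrR0.le
    have hD'0 : 0 < D' := by positivity
    have hlogD' : (1 - κ - 3 * τ) * Real.log x ≤ Real.log D' := by
      rw [← Real.log_rpow hx0]
      exact Real.log_le_log (Real.rpow_pos_of_pos hx0 _) hD'1
    apply step G w hw U t r (by omega) ht1 (D := D) (D' := D') (α := α) (L := L) (η := τ)
      (γ := 1 / b * (Real.log D' / D')) hL0.le hα0.le hτ0 (by linarith) (by linarith) hdeg ht2
    · intro y ρ hρ
      exact hheavy V G hG (U.filter (fun u => t u = y)) D' (p2.trans hD'1) (fun v hv =>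
        ht2 v (Finset.mem_of_mem_filter v hv) y) ρ hρ
    · rw [div_le_iff₀ hDa]
      have e1 : D ≤ 2 * (D - α) := by linarith
      have e2 : L ≤ τ ^ 2 / 3 * (x ^ τ * x ^ κ) * (1 / τ) := by
        rw [hL]
        have : 4 / τ * x ^ κ = (τ ^ 2 / 3 * (12 / τ ^ 2 * x ^ κ)) * (1 / τ) := by
          field_simp
          ring
        rw [this]
        gcongr
      have e3 : L ≤ τ / 3 * r := by
        refine e2.trans ?_
        rw [← Real.rpow_add hx0]
        calc τ ^ 2 / 3 * x ^ (τ + κ) * (1 / τ) = τ / 3 * x ^ (κ + τ) := by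
              rw [add_comm τ κ]; field_simp
          _ ≤ τ / 3 * r := by gcongr
      calc L * D' ≤ (τ / 3 * r) * D' := by gcongr
        _ = τ / 3 * (1 + τ) * D := by rw [hD']; field_simp
        _ ≤ τ / 3 * (5 / 4) * (2 * (D - α)) := by
            gcongr
            linarith
        _ = 5 / 6 * (τ * (D - α)) := by ring
        _ ≤ 1 * (τ * (D - α)) := mul_le_mul_of_nonneg_right (by norm_num) (by positivity)
        _ = τ * (D - α) := one_mul _
    · rw [div_le_iff₀ hDa]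
      have e1 : Dmin ≤ D - α := by linarith
      calc L * α ≤ L * (1 / b * Real.log x) := by gcongr
        _ = x ^ κ * (4 * (1 / b * Real.log x)) / τ := by rw [hL]; ring
        _ ≤ x ^ κ * (τ ^ 2 * x ^ (1 - κ - τ)) / τ := by gcongr
        _ = τ * (x ^ κ * x ^ (1 - κ - τ)) := by field_simp
        _ = τ * Dmin := by
            rw [← Real.rpow_add hx0, hDmin]; ring_nf
        _ ≤ τ * (D - α) := by gcongr
    · have e1 : 1 / b * (Real.log D' / D') / r = 1 / b * Real.log D' / ((1 + τ) * D) := by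
        rw [hD']; field_simp
      rw [e1]
      have e2 : (1 + τ) * (α / D) = (1 - τ) * (1 / b * ((1 - κ - 3 * τ) * Real.log x) /
          ((1 + τ) * D)) := by
        rw [hα, hθ]; field_simp
      rw [e2]
      gcongr
  -- iteration
  set n : ℕ := ⌊(D0 - Dmin) / α⌋₊ with hn
  have hD0min : 0 ≤ D0 - Dmin := by linarith
  have hn1 : (n:ℝ) * α ≤ D0 - Dmin := by
    have := Nat.floor_le (show 0 ≤ (D0 - Dmin) / α by positivity)
    rwa [le_div_iff₀ hα0] at this
  have hn2 : D0 - Dmin ≤ n * α + α := by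
    have := (Nat.lt_floor_add_one ((D0 - Dmin) / α)).le
    rw [div_le_iff₀ hα0] at this
    rw [hn]; linarith
  obtain ⟨R, W, f, h1, h2, h3, h4⟩ := iterate G w hw hL0.le hα0.le hDmin0 hstep n univ D0 le_rfl
    (by linarith) (by
      intro v _
      exact (hdegG v).trans hxD0)
  have hW : ∀ v ∈ W, dg G W v ≤ Dmin + α := fun v hv => (h3 v hv).trans (by linarith)
  obtain ⟨g, hg1, hg2⟩ := greedy G (Dmin + α) W hW
  refine ⟨R, n + (⌊Dmin + α⌋₊ + 1), fun v => if v ∈ W then n + g v else f v, ?_, ?_, ?_, ?_⟩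
  · intro v hv
    by_cases hvW : v ∈ W
    · simp only [hvW, if_true]
      have := hg1 v hvW
      omega
    · simp only [hvW, if_false]
      have := h1 v (mem_univ v) hv hvW
      omega
  · intro v hv w hw hadj
    by_cases hvW : v ∈ W <;> by_cases hwW : w ∈ W
    · simp only [hvW, hwW, if_true]
      have := hg2 v hvW w hwW hadj
      omega
    · simp only [hvW, hwW, if_true, if_false]
      have := h1 w (mem_univ w) hw hwW
      omega
    · simp only [hvW, hwW, if_true, if_false]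
      have := h1 v (mem_univ v) hv hvW
      omega
    · simp only [hvW, hwW, if_false]
      exact h2 v (mem_univ v) hv hvW w (mem_univ w) hw hwW hadj
  · push_cast
    have e1 : (n:ℝ) ≤ (1 + τ) * b / θ * (x / Real.log x) := by
      have : (n:ℝ) ≤ D0 / α := by
        rw [le_div_iff₀ hα0]; linarith
      refine this.trans (le_of_eq ?_)
      rw [hD0, hα]; field_simp
    have e2 : ((⌊Dmin + α⌋₊ : ℕ) : ℝ) ≤ Dmin + α := Nat.floor_le (by positivity)
    have e3 : Dmin + α + 1 ≤ τ * (x / Real.log x) := by linarith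
    rw [add_mul]
    linarith
  · have hW0 : 0 ≤ Wt w univ := Finset.sum_nonneg fun v _ => hw v
    have e1 : Phi G w L univ D0 ≤ Wt w univ * Real.exp (L / (1 + τ)) := by
      unfold Phi Wt
      rw [Finset.sum_mul]
      apply Finset.sum_le_sum
      intro v _
      apply mul_le_mul_of_nonneg_left _ (hw v)
      apply Real.exp_le_exp.2
      rw [hD0, div_le_div_iff₀ (by positivity) (by positivity)]
      have h5 : L * dg G univ v ≤ L * x := mul_le_mul_of_nonneg_left (hdegG v) hL0.le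
      calc L * dg G univ v * (1 + τ) ≤ L * x * (1 + τ) :=
            mul_le_mul_of_nonneg_right h5 (by linarith)
        _ = L * ((1 + τ) * x) := by ring
    have e2 : Real.exp L * Wt w R ≤ Wt w univ * Real.exp (L / (1 + τ)) := h4.trans e1
    have e3 : L / (1 + τ) - L ≤ -(x ^ κ) := by
      have e4 : L / (1 + τ) - L = -(4 / (1 + τ) * x ^ κ) := by
        rw [hL]; field_simp; ring
      rw [e4]
      apply neg_le_neg
      have e5 : 1 ≤ 4 / (1 + τ) := by
        rw [le_div_iff₀ (by positivity)]; linarith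
      exact le_mul_of_one_le_left hxκ0.le e5
    have e6 : Wt w R ≤ Wt w univ * Real.exp (L / (1 + τ) - L) := by
      rw [Real.exp_sub, ← mul_div_assoc, le_div_iff₀ (Real.exp_pos L)]
      linarith
    calc Wt w R ≤ Wt w univ * Real.exp (L / (1 + τ) - L) := e6
      _ ≤ Wt w univ * Real.exp (-(x ^ κ)) :=
          mul_le_mul_of_nonneg_left (Real.exp_le_exp.2 e3) hW0
      _ = _ := by ring

end Pool.Agent.Q287.NC
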