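import Mathlib
import Pool.Agent.Q287.NC.Main
import Pool.Agent.Q287.NC.Dual

set_option autoImplicit false

/-!
# From colourings of almost all vertices back to fractional colourings
-/

namespace Pool.Agent.Q287.NC

open Finset Pool.Agent.Q179.CF
open scoped Classical

theorem dg_le {V : Type} [Fintype V] (G : SimpleGraph V) [DecidableRel G.Adj] (Δ : ℕ)
    (h : G.maxDegree ≤ Δ) (x : V) : dg G Finset.univ x ≤ (Δ:ℝ) := by
  have h1 : (nb G Finset.univ x).card = G.degree x := by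
    unfold nb
    rw [← SimpleGraph.card_neighborFinset_eq_degree]
    congr 1
    ext y
    simp
  rw [← card_nb, h1]
  exact_mod_cast (G.degree_le_maxDegree x).trans h

/-- the fractional bound gives colourings of almost all vertices -/
theorem core {k : ℕ} (F : SimpleGraph (Fin k)) (c : ℝ) (hc : 0 < c)
    (h : ∀ ε : ℝ, 0 < ε → ∃ Δ₀ : ℕ, ∀ Δ : ℕ, Δ₀ ≤ Δ → ∀ (V : Type) [Fintype V]
      (G : SimpleGraph V) [DecidableRel G.Adj], F.Free G → G.maxDegree ≤ Δ →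
      ∃ w : Finset V → ℝ, FC G w ∧ ∑ I, w I ≤ (c + ε) * ((Δ : ℝ) / Real.log (Δ : ℝ)))
    (κ : ℝ) (hκ0 : 0 < κ) (hκ1 : κ < 1) (ε : ℝ) (hε : 0 < ε) :
    ∃ Δ₀ : ℕ, 3 ≤ Δ₀ ∧ ∀ Δ : ℕ, Δ₀ ≤ Δ → ∀ (V : Type) [Fintype V]
      (G : SimpleGraph V) [DecidableRel G.Adj], F.Free G → G.maxDegree ≤ Δ →
      ∀ ρ : V → ℝ, (∀ v, 0 ≤ ρ v) → ∃ (R : Finset V) (f : V → ℕ),
        (∀ v, v ∉ R → f v < ⌊(c / (1 - κ) + ε) * ((Δ : ℝ) / Real.log (Δ : ℝ))⌋₊) ∧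
        (∀ v, v ∉ R → ∀ w, w ∉ R → G.Adj v w → f v ≠ f w) ∧
        ∑ v ∈ R, ρ v ≤ Real.exp (-((Δ:ℝ) ^ κ)) * ∑ v, ρ v := by
  obtain ⟨τ, hτ0, hτ1, _, hτ3⟩ := choose_tau κ c ε hκ1 hε
  obtain ⟨X, hX3, hX⟩ := near F κ τ (c + τ) hκ0 hκ1 hτ0 hτ1 (by linarith) (h τ hτ0)
  obtain ⟨Δ₀, hΔ₀⟩ := exists_nat_ge X
  refine ⟨max 3 Δ₀, le_max_left _ _, ?_⟩
  intro Δ hΔ V _ G _ hG hdeg ρ hρ
  have hΔX : X ≤ (Δ:ℝ) := hΔ₀.trans (by exact_mod_cast (le_max_right 3 Δ₀).trans hΔ)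
  have hΔ3 : (3:ℝ) ≤ Δ := hX3.trans hΔX
  have hlog : 0 < Real.log (Δ:ℝ) := Real.log_pos (by linarith)
  obtain ⟨R, m, f, h1, h2, h3, h4⟩ := hX Δ hΔX V G hG (dg_le G Δ hdeg) ρ hρ
  refine ⟨R, f, ?_, h2, h4⟩
  intro v hv
  have h5 : (m:ℝ) ≤ (c / (1 - κ) + ε) * ((Δ : ℝ) / Real.log (Δ : ℝ)) := by
    refine h3.trans ?_
    exact mul_le_mul_of_nonneg_right hτ3 (by positivity)
  exact lt_of_lt_of_le (h1 v hv) (Nat.le_floor h5)

/-- a heavy colour class -/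
theorem class_heavy {V : Type} [Fintype V] (G : SimpleGraph V) (R : Finset V) (m : ℕ)
    (hcol : (G.induce ((R : Set V)ᶜ)).Colorable m) (ρ : V → ℝ) (hρ : ∀ v, 0 ≤ ρ v) (y : ℝ)
    (hy : 0 < y) (hm : (m:ℝ) ≤ y) :
    ∃ I, Ind G I ∧ (Wt ρ univ - Wt ρ R) / y ≤ Wt ρ I := by
  obtain ⟨C⟩ := hcol
  set S : Finset V := univ.filter (fun v => v ∉ R) with hS
  have hSm : ∀ v, v ∈ S ↔ v ∉ R := fun v => by rw [hS, Finset.mem_filter]; simp
  have hSR : Wt ρ S = Wt ρ univ - Wt ρ R := by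
    unfold Wt
    have := Finset.sum_filter_add_sum_filter_not univ (fun v => v ∉ R) ρ
    have e1 : (univ.filter (fun v => ¬ v ∉ R)) = R := by ext v; simp
    rw [e1] at this
    rw [hS]
    linarith
  rw [← hSR]
  by_cases hne : S = ∅
  · refine ⟨∅, fun a ha => absurd ha (by simp), ?_⟩
    have e0 : Wt ρ (∅ : Finset V) = 0 := Finset.sum_empty
    rw [hne, e0]
    simp
  obtain ⟨v₀, hv₀⟩ := Finset.nonempty_iff_ne_empty.2 hne
  set g : V → ℕ := fun v => if h : v ∉ R then ((C ⟨v, by simpa using h⟩ : Fin m) : ℕ) else 0 with hg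
  have hgm : ∀ v ∈ S, g v ∈ Finset.range m := by
    intro v hv
    have hv' := (hSm v).1 hv
    rw [hg, Finset.mem_range]
    simp only [hv', not_false_eq_true, dif_pos]
    exact (C _).2
  have hm0 : 0 < m := lt_of_le_of_lt (Nat.zero_le _) (Finset.mem_range.1 (hgm v₀ hv₀))
  have hmR : (0:ℝ) < m := by exact_mod_cast hm0
  obtain ⟨i, hi, hiw⟩ : ∃ i ∈ Finset.range m, Wt ρ S / m ≤ Wt ρ (S.filter (fun v => g v = i)) := by
    apply Finset.exists_le_of_sum_le (Finset.nonempty_range_iff.2 hm0.ne')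
    have h1 : ∑ i ∈ Finset.range m, Wt ρ (S.filter (fun v => g v = i)) = Wt ρ S := by
      unfold Wt
      exact Finset.sum_fiberwise_of_maps_to hgm _
    rw [h1, Finset.sum_const, Finset.card_range, nsmul_eq_mul, mul_div_cancel₀ _ hmR.ne']
  refine ⟨S.filter (fun v => g v = i), ?_, ?_⟩
  · intro a ha b hb hab
    rw [Finset.mem_filter] at ha hb
    have ha' := (hSm a).1 ha.1
    have hb' := (hSm b).1 hb.1
    have hga : g a = ((C ⟨a, by simpa using ha'⟩ : Fin m) : ℕ) := by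
      rw [hg]; simp only [ha', not_false_eq_true, dif_pos]
    have hgb : g b = ((C ⟨b, by simpa using hb'⟩ : Fin m) : ℕ) := by
      rw [hg]; simp only [hb', not_false_eq_true, dif_pos]
    have hne2 := C.valid (v := ⟨a, by simpa using ha'⟩) (w := ⟨b, by simpa using hb'⟩) (by
      simpa using hab)
    apply hne2
    apply Fin.ext
    rw [← hga, ← hgb, ha.2, hb.2]
  · refine le_trans ?_ hiw
    have hW : 0 ≤ Wt ρ S := Finset.sum_nonneg fun v _ => hρ v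
    gcongr

theorem ev_small (κ δ : ℝ) (hκ : 0 < κ) (hδ : 0 < δ) :
    ∃ X : ℝ, ∀ x : ℝ, X ≤ x → Real.exp (-(x ^ κ)) ≤ δ := by
  have h1 := (Real.tendsto_exp_neg_atTop_nhds_zero.comp (tendsto_rpow_atTop hκ))
  have h2 := h1.eventually_le_const hδ
  obtain ⟨X, hX⟩ := h2.exists_forall_of_atTop
  exact ⟨X, fun x hx => hX x hx⟩

/-- colourings of almost all vertices give fractional colourings -/
theorem back {k : ℕ} (F : SimpleGraph (Fin k)) (c : ℝ) (hc : 0 < c)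
    (h : ∀ κ : ℝ, 0 < κ → κ < 1 → ∀ ε : ℝ, 0 < ε → ∃ Δ₀ : ℕ, ∀ Δ : ℕ, Δ₀ ≤ Δ →
      ∀ (V : Type) [Fintype V] (G : SimpleGraph V) [DecidableRel G.Adj],
      F.Free G → G.maxDegree ≤ Δ → ∀ ρ : V → ℝ, (∀ v, 0 ≤ ρ v) → ∃ R : Finset V,
        ∑ v ∈ R, ρ v ≤ Real.exp (-((Δ:ℝ) ^ κ)) * ∑ v, ρ v ∧
        (G.induce ((R : Set V)ᶜ)).Colorable
          ⌊(c / (1 - κ) + ε) * ((Δ : ℝ) / Real.log (Δ : ℝ))⌋₊)
    (ε : ℝ) (hε : 0 < ε) :
    ∃ Δ₀ : ℕ, ∀ Δ : ℕ, Δ₀ ≤ Δ → ∀ (V : Type) [Fintype V]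
      (G : SimpleGraph V) [DecidableRel G.Adj], F.Free G → G.maxDegree ≤ Δ →
      ∃ w : Finset V → ℝ, FC G w ∧ ∑ I, w I ≤ (c + ε) * ((Δ : ℝ) / Real.log (Δ : ℝ)) := by
  set κ : ℝ := (ε / 4) / (c + ε / 4) with hκ
  have hκ0 : 0 < κ := by positivity
  have hκ1 : κ < 1 := by
    rw [hκ, div_lt_one (by positivity)]; linarith
  have hcκ : c / (1 - κ) = c + ε / 4 := by
    have : 1 - κ = c / (c + ε / 4) := by
      rw [hκ]; field_simp; ring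
    rw [this]
    field_simp
  obtain ⟨Δ₁, hΔ₁⟩ := h κ hκ0 hκ1 (ε / 4) (by positivity)
  set δ : ℝ := (ε / 2) / (c + ε) with hδ
  have hδ0 : 0 < δ := by positivity
  have h1δ : 1 - δ = (c + ε / 2) / (c + ε) := by
    rw [hδ]; field_simp; ring
  obtain ⟨X, hX⟩ := ev_small κ δ hκ0 hδ0
  obtain ⟨Δ₂, hΔ₂⟩ := exists_nat_ge X
  refine ⟨max 3 (max Δ₁ Δ₂), ?_⟩
  intro Δ hΔ V _ G _ hG hdeg
  have hΔ3 : 3 ≤ Δ := (le_max_left _ _).trans hΔ
  have hΔ3R : (3:ℝ) ≤ Δ := by exact_mod_cast hΔ3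
  have hΔ1' : Δ₁ ≤ Δ := (le_max_left _ _).trans ((le_max_right _ _).trans hΔ)
  have hΔX : X ≤ (Δ:ℝ) := hΔ₂.trans (by
    exact_mod_cast (le_max_right _ _).trans ((le_max_right _ _).trans hΔ))
  have hlog : 0 < Real.log (Δ:ℝ) := Real.log_pos (by linarith)
  have hΔ0 : (0:ℝ) < Δ := by linarith
  set z : ℝ := (Δ:ℝ) / Real.log (Δ:ℝ) with hz
  have hz0 : 0 < z := by positivity
  have hγ : 0 < 1 / ((c + ε) * z) := by positivity
  obtain ⟨w, hw1, hw2⟩ := exists_frac G hγ (by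
    intro ρ hρ
    obtain ⟨R, hR, hcol⟩ := hΔ₁ Δ hΔ1' V G hG hdeg ρ hρ
    have hy : 0 < (c + ε / 2) * z := by positivity
    have hmle : ((⌊(c / (1 - κ) + ε / 4) * z⌋₊ : ℕ) : ℝ) ≤ (c + ε / 2) * z := by
      refine (Nat.floor_le (by rw [hcκ]; positivity)).trans (le_of_eq ?_)
      rw [hcκ]; ring
    obtain ⟨I, hI, hIw⟩ := class_heavy G R _ hcol ρ hρ _ hy hmle
    refine ⟨I, hI, le_trans ?_ hIw⟩
    have hW : 0 ≤ Wt ρ univ := Finset.sum_nonneg fun v _ => hρ v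
    have hRle : Wt ρ R ≤ δ * Wt ρ univ :=
      hR.trans (mul_le_mul_of_nonneg_right (hX Δ hΔX) hW)
    have e1 : 1 / ((c + ε) * z) * Wt ρ univ = (1 - δ) * Wt ρ univ / ((c + ε / 2) * z) := by
      rw [h1δ]; field_simp
    rw [e1]
    apply div_le_div_of_nonneg_right _ hy.le
    linarith)
  refine ⟨w, hw1, ?_⟩
  rw [hw2]
  apply le_of_eq
  field_simp

end Pool.Agent.Q287.NC
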